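import Pool.Agent.H50.ODG.Targets
import Pool.Agent.H5.TOH.AEE

/-!
# Row AEG of the board `odg_modules`: two orbits, class `{1, 2}`, with the second distance
-/

set_option autoImplicit false

namespace Pool.Agent.H91.ODG

open Pool.Agent.H57.CP Pool.Agent.H39.TO Pool.Agent.H39.OD Pool.Agent.H50.ODG Pool.Agent.H5.TOH

theorem pf_AEG (hAEA : T_AEA) (hAEB : T_AEB) (hAEC : T_AEC) (hAED : T_AED) (hFLD : T_FLD)
    (hFLA : T_FLA) (hFLB : T_FLB) (hSYG : T_SYG) (hEQV : T_EQV) : T_AEG := by
  intro v v' a b c h hne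
  have act_act : ∀ (g k : Equiv.Perm H3) (Φ : Fg), act g (act k Φ) = act (g * k) Φ := by
    intro g k Φ
    show (g (k Φ.1), g '' (k '' Φ.2.1), (Set.image g) '' ((Set.image k) '' Φ.2.2)) =
      ((g * k) Φ.1, (g * k) '' Φ.2.1, (Set.image (g * k : Equiv.Perm H3)) '' Φ.2.2)
    rw [← img_mul, img2_img2]
    rfl
  constructor
  · have hΦ : Fl (KA v v' a b c) (v, {v, v'}, fc a b {v, v'}) :=
      ⟨Or.inl rfl, base_fc _, 1, one_mem _, (img2_one _).symm⟩
    refine ⟨(v, {v, v'}, fc a b {v, v'}), (v', {v, v'}, fc a b {v, v'}), hΦ,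
      ⟨Or.inr rfl, base_fc _, 1, one_mem _, (img2_one _).symm⟩, ?_⟩
    rintro ⟨g, hg, hact⟩
    have h1 : g v = v' := congrArg (fun t : Fg => t.1) hact
    have h2 : g '' {v, v'} = {v, v'} := congrArg (fun t : Fg => t.2.1) hact
    have h3 : (Set.image g) '' fc a b {v, v'} = fc a b {v, v'} :=
      congrArg (fun t : Fg => t.2.2) hact
    have h4 : g v' = v := by
      have : g v' ∈ ({v, v'} : Set H3) := by
        rw [← h2]
        exact ⟨v', Or.inr rfl, rfl⟩
      rcases this with h5 | h5
      · exact h5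
      · rw [Set.mem_singleton_iff] at h5
        exact absurd (g.injective (h1.trans h5.symm)) (ne_of h)
    have hm : ({v, a v'} : Set H3) ∈ fc a b {v, v'} :=
      ⟨a, Subgroup.subset_closure (Or.inl rfl), (a_img h).symm⟩
    have hm2 : g '' {v, a v'} ∈ fc a b {v, v'} := by
      rw [← h3]
      exact ⟨_, hm, rfl⟩
    rw [img_pair, h1] at hm2
    have hm3 : ({v', g (a v')} : Set H3) ∈ {e | e ∈ fc a b {v, v'} ∧ v' ∈ e} :=
      ⟨hm2, Or.inl rfl⟩
    rw [fc_v' h] at hm3
    have hg1 : g (a v') = b v := by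
      rcases hm3 with h5 | h5
      · exfalso
        rw [Set.pair_comm v v'] at h5
        have h6 : g (a v') ≠ v' := fun e => ne_inv h aG (g.injective (e.trans h1.symm))
        have h7 := pair_right h5 h6
        rw [← h4] at h7
        exact av'_ne h (g.injective h7)
      · rw [Set.mem_singleton_iff, Set.pair_comm (b v) v'] at h5
        exact pair_right h5 fun e => ne_inv h aG (g.injective (e.trans h1.symm))
    rcases hne with hne | hne
    · apply hne
      rw [← hg.iso v' (a v'), h4, hg1]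
    · apply hne
      have hA := hAEA v v' a b c h
      obtain ⟨-, -, -, -, -, -, hfc, hfaces⟩ := hA
      -- the image of the second face
      have hcF : (Set.image c) '' fc a b {v, v'} ∈ (KA v v' a b c).F := ⟨c, cG, rfl⟩
      have hgF : (Set.image g) '' ((Set.image c) '' fc a b {v, v'}) ∈ (KA v v' a b c).F :=
        (hg.f _).2 hcF
      have hmem : ({v, v'} : Set H3) ∈ (Set.image g) '' ((Set.image c) '' fc a b {v, v'}) :=
        ⟨{v, v'}, ⟨{v, v'}, base_fc _, c_img h⟩, h2⟩
      obtain ⟨k, hk, hkf⟩ := hgF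
      have hgc : (Set.image g) '' ((Set.image c) '' fc a b {v, v'}) =
          (Set.image c) '' fc a b {v, v'} := by
        have h5 := hfaces k hk (by rw [← hkf]; exact hmem)
        rw [← hkf] at h5
        rcases h5 with h5 | h5
        · exfalso
          apply hfc
          have h6 := h5.trans h3.symm
          exact (img2_inj g h6).symm
        · exact h5
      have hc : Sy (KA v v' a b c) c := hAEC v v' a b c h c cG
      have hgcS : Sy (KA v v' a b c) (g * c) := (hSYG _).2.1 g c hg hc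
      have hcgS : Sy (KA v v' a b c) (c * g) := (hSYG _).2.1 c g hc hg
      have hacteq : act (g * c) (v, {v, v'}, fc a b {v, v'}) =
          act (c * g) (v, {v, v'}, fc a b {v, v'}) := by
        rw [← act_act, ← act_act]
        show act g (c v, c '' {v, v'}, (Set.image c) '' fc a b {v, v'}) =
          act c (g v, g '' {v, v'}, (Set.image g) '' fc a b {v, v'})
        rw [h1, h2, h3, h.cv, c_img h]
        show (g v, g '' {v, v'}, (Set.image g) '' ((Set.image c) '' fc a b {v, v'})) =
          (c v', c '' {v, v'}, (Set.image c) '' fc a b {v, v'})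
        rw [h1, h2, hgc, h.cv', c_img h]
      have hx : a v' ∈ (KA v v' a b c).V := ⟨a, aG, Or.inr rfl⟩
      have h7 := hFLD _ (hAEB v v' a b c h) (g * c) (c * g) hgcS hcgS _ hΦ hacteq (a v') hx
      have h8 : g (c (a v')) = c (b v) := by
        have : g (c (a v')) = c (g (a v')) := h7
        rw [this, hg1]
      rw [← hg.iso (a v') (c (a v')), hg1, h8]
  · intro Φ Ψ Θ h1 h2 h3
    obtain ⟨g1, m1, e1⟩ := hAED v v' a b c h Φ h1
    obtain ⟨g2, m2, e2⟩ := hAED v v' a b c h Ψ h2
    obtain ⟨g3, m3, e3⟩ := hAED v v' a b c h Θ h3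
    have key : ∀ (g k : Equiv.Perm H3) (Φ : Fg), g ∈ G3 a b c → k ∈ G3 a b c →
        Eqv (KA v v' a b c) (act g Φ) (act k Φ) := by
      intro g k Φ hg hk
      refine ⟨k * g⁻¹, hAEC v v' a b c h _ (mul_mem hk (inv_mem hg)), ?_⟩
      rw [act_act, inv_mul_cancel_right]
    rcases e1 with rfl | rfl <;> rcases e2 with rfl | rfl <;> rcases e3 with rfl | rfl
    · exact Or.inl (key _ _ _ m1 m2)
    · exact Or.inl (key _ _ _ m1 m2)
    · exact Or.inr (Or.inr (key _ _ _ m1 m3))
    · exact Or.inr (Or.inl (key _ _ _ m2 m3))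
    · exact Or.inr (Or.inl (key _ _ _ m2 m3))
    · exact Or.inr (Or.inr (key _ _ _ m1 m3))
    · exact Or.inl (key _ _ _ m1 m2)
    · exact Or.inl (key _ _ _ m1 m2)

end Pool.Agent.H91.ODG
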