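import Pool.Agent.H50.ODG.Targets

/-!
# Row C7 of the board `odg_modules`: the cosine of `π / 7`
-/

set_option autoImplicit false

namespace Pool.Agent.H91.ODG

open Pool.Agent.H57.CP Pool.Agent.H39.TO Pool.Agent.H39.OD Pool.Agent.H50.ODG

theorem pf_C7 : T_C7 := by
  obtain ⟨c, hc⟩ : ∃ c : ℝ, Real.cos (Real.pi / 7) = c := ⟨_, rfl⟩
  have hpi := Real.pi_pos
  have hc6 : (86 : ℝ) / 100 < c := by
    have h1 : Real.cos (Real.pi / 6) < Real.cos (Real.pi / 7) := by
      apply Real.cos_lt_cos_of_nonneg_of_le_pi_div_two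
      · positivity
      · linarith
      · linarith
    rw [Real.cos_pi_div_six, hc] at h1
    have h2 : (172 : ℝ) / 100 < Real.sqrt 3 := by
      apply Real.lt_sqrt_of_sq_lt
      norm_num
    linarith
  have hc1 : c < 1 := by
    rw [← hc, ← Real.cos_zero]
    apply Real.cos_lt_cos_of_nonneg_of_le_pi_div_two
    · exact le_refl _
    · linarith
    · positivity
  have h2 : Real.cos (2 * (Real.pi / 7)) = 2 * c ^ 2 - 1 := by
    rw [Real.cos_two_mul, hc]
  have h3 : Real.cos (3 * (Real.pi / 7)) = 4 * c ^ 3 - 3 * c := by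
    rw [Real.cos_three_mul, hc]
  have h4 : Real.cos (4 * (Real.pi / 7)) = 2 * (2 * c ^ 2 - 1) ^ 2 - 1 := by
    rw [show 4 * (Real.pi / 7) = 2 * (2 * (Real.pi / 7)) by ring, Real.cos_two_mul, h2]
  have h43 : Real.cos (4 * (Real.pi / 7)) = -Real.cos (3 * (Real.pi / 7)) := by
    rw [← Real.cos_pi_sub]
    congr 1
    ring
  have hpoly : 8 * c ^ 3 - 4 * c ^ 2 - 4 * c + 1 = 0 := by
    have h5 : (c + 1) * (8 * c ^ 3 - 4 * c ^ 2 - 4 * c + 1) = 0 := by
      have h6 : 2 * (2 * c ^ 2 - 1) ^ 2 - 1 = -(4 * c ^ 3 - 3 * c) := by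
        rw [← h4, h43, h3]
      linear_combination h6
    rcases mul_eq_zero.1 h5 with h6 | h6
    · exfalso
      linarith
    · exact h6
  have hlo : (9 : ℝ) / 10 < c := by
    by_contra hcon
    push Not at hcon
    nlinarith [mul_nonneg (sub_nonneg.2 hcon) (sub_nonneg.2 hc6.le), sq_nonneg c,
      mul_nonneg (mul_nonneg (sub_nonneg.2 hcon) (sub_nonneg.2 hc6.le)) (sub_nonneg.2 hc1.le)]
  have hhi : c < 91 / 100 := by
    by_contra hcon
    push Not at hcon
    nlinarith [mul_nonneg (sub_nonneg.2 hcon) (sub_nonneg.2 hcon), sq_nonneg c,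
      mul_nonneg (mul_nonneg (sub_nonneg.2 hcon) (sub_nonneg.2 hcon)) (sub_nonneg.2 hcon)]
  have e1 : cn (1 / 7) = c := by
    unfold cn
    rw [← hc]
    congr 1
    push_cast
    ring
  have e2 : cn (2 / 7) = 2 * c ^ 2 - 1 := by
    unfold cn
    rw [← h2]
    congr 1
    push_cast
    ring
  have e3 : cn (3 / 7) = 4 * c ^ 3 - 3 * c := by
    unfold cn
    rw [← h3]
    congr 1
    push_cast
    ring
  have e4 : cn (4 / 7) = -(4 * c ^ 3 - 3 * c) := by
    unfold cn
    rw [← h3, ← h43]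
    congr 1
    push_cast
    ring
  exact ⟨c, hc, hpoly, hlo, hhi, e1, e2, e3, e4⟩

end Pool.Agent.H91.ODG
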