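import Pool.Agent.H50.ODG.Targets

/-!
# Row CFI of the board `odg_modules`: independence of the normals
-/

set_option autoImplicit false

namespace Pool.Agent.H91.ODG

open Pool.Agent.H57.CP Pool.Agent.H39.TO Pool.Agent.H39.OD Pool.Agent.H50.ODG

theorem cfi_mk_symm (x y : V4) : mk x y = mk y x := by
  unfold mk
  ring

theorem cfi_mk_comb (z l m n : V4) (a b c : ℝ) :
    mk z (a • l + b • m + c • n) = a * mk z l + b * mk z m + c * mk z n := by
  simp only [mk, Pi.add_apply, Pi.smul_apply, smul_eq_mul]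
  ring

theorem cfi_mk_zero (z : V4) : mk z 0 = 0 := by
  simp [mk]

theorem cfi_swap {x x' : H3} {n0 n1 n2 : V4} (h : InS x x' n0 n1 n2) : InS x' x n1 n0 n2 := by
  obtain ⟨r, s, t, hr⟩ := h
  refine ⟨-s, -r, -t, ?_⟩
  have : x'.1 - x.1 = -(x.1 - x'.1) := by abel
  rw [this, hr]
  simp only [neg_smul]
  abel

theorem pf_CFI (hLIP : T_LIP) : T_CFI := by
  intro u v w x x' n0 n1 n2 h
  refine ⟨?_, ?_, ?_, ?_, ?_⟩
  · rw [Fintype.linearIndependent_iff]
    intro g hg
    rw [Fin.sum_univ_three] at hg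
    change g 0 • n0 + g 1 • n1 + g 2 • n2 = 0 at hg
    have hx := congrArg (mk x.1) hg
    have hx' := congrArg (mk x'.1) hg
    have hn := congrArg (mk n2) hg
    rw [cfi_mk_comb, cfi_mk_zero] at hx hx' hn
    rw [h.xa, h.xc] at hx
    rw [h.yb, h.yc] at hx'
    have h1 : g 1 = 0 := by
      have h3 : g 1 * mk x.1 n1 = 0 := by linarith
      rcases mul_eq_zero.1 h3 with h4 | h4
      · exact h4
      · exact absurd h4 h.xb.ne
    have h0 : g 0 = 0 := by
      have h3 : g 0 * mk x'.1 n0 = 0 := by linarith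
      rcases mul_eq_zero.1 h3 with h4 | h4
      · exact h4
      · exact absurd h4 h.ya.ne
    have h2 : g 2 = 0 := by
      rw [h0, h1, h.u2] at hn
      linarith
    intro i
    fin_cases i
    · exact h0
    · exact h1
    · exact h2
  · intro he
    have h1 := h.xb
    rw [he, h.yb] at h1
    exact lt_irrefl _ h1
  · exact
      { u0 := h.u1
        u1 := h.u0
        u2 := h.u2
        e02 := h.e12
        e12 := h.e02
        e01 := by rw [cfi_mk_symm]; exact h.e01
        xa := h.yb
        xc := h.yc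
        yb := h.xa
        yc := h.xc
        xb := h.ya
        ya := h.xb }
  · exact ⟨cfi_swap, cfi_swap⟩
  · constructor
    · rintro hN ⟨O, h1, h0, h2⟩
      exact hN ⟨O, h0, h1, h2⟩
    · rintro hN ⟨O, h0, h1, h2⟩
      exact hN ⟨O, h1, h0, h2⟩

end Pool.Agent.H91.ODG
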